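import Mathlib
import Pool.Agent.H723R2.LSWDens
import Pool.Agent.X62.AD.Side

set_option autoImplicit false

/-!
Integers in wandering domains and in superattracting basins of the entire interpolation `f₀` of the
`3x+1` function, and all real additive functions: asymptotic independence, uniformly in the additive
functions, in the intervals of their values and in multiplicative weights; the joint limit law with the
number of prime factors.
-/

namespace Pool.Agent.Results.MP_071ec9_an.AdditiveFunctions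

open Filter Topology Finset
open Pool.Agent.H384R2.Fatou

/-- The entire function of Letherman, Schleicher and Wood; `f₀ n = T n` for every integer `n`, where
`T` is the `3x+1` function. -/
noncomputable def f₀ (z : ℂ) : ℂ :=
  z / 2 + (z + 1 / 2) * ((1 - Complex.cos (Real.pi * z)) / 2) +
    1 / Real.pi * (1 / 2 - Complex.cos (Real.pi * z)) * Complex.sin (Real.pi * z)

/-- Among the integers of sign `s` the set `S` has natural density `d`. -/
def HasDensity (s : ℤ) (S : Set ℤ) (d : ℝ) : Prop :=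
  Tendsto (fun N : ℕ => ({n : ℤ | 0 < s * n ∧ s * n ≤ N ∧ n ∈ S}.ncard : ℝ) / N) atTop (𝓝 d)

/-- The integers whose Fatou component is a wandering domain of `f₀`. -/
def WanderingIntegers : Set ℤ := {n | IsWanderingDomain f₀ (FatouComponent f₀ n)}

/-- The integers `n` in the Fatou set whose component is not a wandering domain and is attracted to
the cycle of the integer `a`, of period (dividing) `p`: all points `z` of the component satisfy
`f₀^(k+pm)(z) → a` as `m → ∞`, for some `k`. -/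
def BasinIntegers (a : ℤ) (p : ℕ) : Set ℤ :=
  {n | (n : ℂ) ∈ FatouSet f₀ ∧ ¬ IsWanderingDomain f₀ (FatouComponent f₀ n) ∧
    ∃ k : ℕ, ∀ z ∈ FatouComponent f₀ n,
      Tendsto (fun m : ℕ => f₀^[k + p * m] z) atTop (𝓝 (a : ℂ))}

/-- The cycles of `f₀` in the integers of sign `s`, each represented by its element of least absolute
value. -/
def IsCycleRep (s a : ℤ) : Prop :=
  0 < s * a ∧ (∃ p : ℕ, 0 < p ∧ f₀^[p] (a : ℂ) = a) ∧
    ∀ (j : ℕ) (b : ℤ), f₀^[j] (a : ℂ) = b → s * a ≤ s * b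

/-- The orbit of the integer `n` under `f₀` visits `a` for the first time at time `k`. -/
def Visits (a : ℤ) (k : ℕ) (n : ℤ) : Prop := f₀^[k] (n : ℂ) = a ∧ ∀ i < k, f₀^[i] (n : ℂ) ≠ a

/-- `2 log |n| / log (4/3) + x * log 3 * √(2 log |n| / (log (4/3))^3)` -/
noncomputable def bound (x : ℝ) (n : ℤ) : ℝ :=
  2 / Real.log (4 / 3) * Real.log |(n : ℝ)| +
    x * (Real.log 3 * Real.sqrt (2 * Real.log |(n : ℝ)| / Real.log (4 / 3) ^ 3))

/-- The distribution function of the standard normal law. -/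
noncomputable def Phi (x : ℝ) : ℝ :=
  ProbabilityTheory.cdf (ProbabilityTheory.gaussianReal 0 1) x

/-- `f` is an additive function -/
def Additive (f : ℕ → ℝ) : Prop := ∀ m n : ℕ, m.Coprime n → f (m * n) = f m + f n

/-- `|n|` has at most `log log |n| + y √(log log |n|)` different prime factors -/
def FewPrimes (y : ℝ) (n : ℤ) : Prop :=
  (n.natAbs.primeFactors.card : ℝ) ≤ Real.log (Real.log |(n : ℝ)|) + y * Real.sqrt (Real.log (Real.log |(n : ℝ)|))

open scoped Classical in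
/-- AMONG THE INTEGERS OF SIGN `s` THE SET `S` HAS THE FREQUENCY `l`, INDEPENDENTLY OF ALL ADDITIVE
FUNCTIONS, with multiplicative weights: for all `d`, `c, ε > 0`, `x₀` and all coprime residue classes `r`
modulo `Q` and all large `N`: for every multiplicative `h` with `0 ≤ h ≤ 1` and
`∑_{p ≤ x} h p ≥ c x / log x` for `x ≥ x₀`, every complex multiplicative `g` with `|g| ≤ h`, all real
additive functions `f₁, ..., f_d` and all intervals `J₁, ..., J_d`, the sum of `g n` over the `n ≤ N`,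
`n ≡ r (mod Q)`, with `f_j n ∈ J_j` (`j = 1, ..., d`) and `s n ∈ S` is `l` times the sum without the
condition `s n ∈ S`, up to `ε ∑_{n ≤ N} h n`. -/
def Weighted (s : ℤ) (S : Set ℤ) (l : ℝ) : Prop := ∀ (d : ℕ) (c : ℝ) (x₀ : ℕ) (ε : ℝ) (Q r : ℕ), 0 < c →
  0 < ε → 1 ≤ Q → r.Coprime Q → ∃ N₀ : ℕ, ∀ N : ℕ, N₀ ≤ N → ∀ h : ArithmeticFunction ℝ, h.IsMultiplicative →
    (∀ n, 0 ≤ h n ∧ h n ≤ 1) →
    (∀ x : ℕ, x₀ ≤ x → c * (x / Real.log x) ≤ ∑ p ∈ (Icc 1 x).filter Nat.Prime, h p) →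
    ∀ g : ArithmeticFunction ℂ, g.IsMultiplicative → (∀ n, ‖g n‖ ≤ h n) →
    ∀ f : Fin d → ℕ → ℝ, (∀ j, Additive (f j)) → ∀ J : Fin d → Set ℝ, (∀ j, (J j).OrdConnected) →
    ‖∑ n ∈ (Icc 1 N).filter (fun n => n % Q = r % Q ∧ (∀ j, f j n ∈ J j) ∧ s * (n : ℤ) ∈ S), g n -
      l * ∑ n ∈ (Icc 1 N).filter (fun n => n % Q = r % Q ∧ ∀ j, f j n ∈ J j), g n‖ ≤
      ε * ∑ n ∈ Icc 1 N, h n

/-- the same for numbers of integers in multiplicative sets: for all `d`, `c, ε > 0`, `x₀`, coprime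
residue classes `r` modulo `Q` and all large `N`: for every set `E` of positive integers with `1 ∈ E` and
`m n ∈ E ↔ m ∈ E ∧ n ∈ E` for coprime `m, n` and at least `c x / log x` primes up to `x` for `x ≥ x₀`, all
real additive functions `f_j` and all intervals `J_j` -/
def Counting (s : ℤ) (S : Set ℤ) (l : ℝ) : Prop := ∀ (d : ℕ) (c : ℝ) (x₀ : ℕ) (ε : ℝ) (Q r : ℕ), 0 < c →
  0 < ε → 1 ≤ Q → r.Coprime Q → ∃ N₀ : ℕ, ∀ N : ℕ, N₀ ≤ N → ∀ E : Set ℕ,
    (0 ∉ E ∧ 1 ∈ E ∧ ∀ m n : ℕ, m.Coprime n → (m * n ∈ E ↔ m ∈ E ∧ n ∈ E)) →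
    (∀ x : ℕ, x₀ ≤ x → c * (x / Real.log x) ≤ {p : ℕ | p.Prime ∧ p ≤ x ∧ p ∈ E}.ncard) →
    ∀ f : Fin d → ℕ → ℝ, (∀ j, Additive (f j)) → ∀ J : Fin d → Set ℝ, (∀ j, (J j).OrdConnected) →
    |({n : ℕ | n ≤ N ∧ n ∈ E ∧ n % Q = r % Q ∧ (∀ j, f j n ∈ J j) ∧ s * (n : ℤ) ∈ S}.ncard : ℝ) -
      l * {n : ℕ | n ≤ N ∧ n ∈ E ∧ n % Q = r % Q ∧ ∀ j, f j n ∈ J j}.ncard| ≤
      ε * {n : ℕ | n ≤ N ∧ n ∈ E}.ncard

/-- `S` has the frequency `l` independently of all additive functions, with weights and in multiplicative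
sets, and the elements `n` of `S` with at most `log log |n| + y √(log log |n|)` prime factors have the
natural density `l Φ(y)` among the integers of sign `s` -/
def Independent (s : ℤ) (S : Set ℤ) (l : ℝ) : Prop :=
  Weighted s S l ∧ Counting s S l ∧ ∀ y : ℝ, HasDensity s {n | n ∈ S ∧ FewPrimes y n} (l * Phi y)

open Pool.Agent.X62.AD (RA RA_full RA_sets RA_ek RA_hit RA_not RA_congr RA_inv' rel_entr_k lln2 side_dn natAbs_side)

open Pool.Agent.H723R2.LSW (T Mer Wild cast_iter)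

theorem T_Td : T = Pool.Agent.H499R2.ND.Td 1 := rfl

theorem rel_of {s : ℤ} (hs : s = 1 ∨ s = -1) {S : Set ℤ} {l : ℝ} (h : RA (fun n : ℕ => s * (n : ℤ) ∈ S) l) :
    Independent s S l := by
  refine ⟨fun d c x₀ ε Q r hc hε hQ hr => RA_full h d c x₀ ε Q r hc hε hQ hr,
    fun d c x₀ ε Q r hc hε hQ hr => RA_sets h d c x₀ ε Q r hc hε hQ hr, fun y => ?_⟩
  refine side_dn hs (Pool.Agent.H499R2.LT.Dn_iff (fun n _ => ?_) (RA_ek h y))
  show _ ↔ s * (n : ℤ) ∈ S ∧ FewPrimes y (s * (n : ℤ))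
  unfold FewPrimes
  rw [natAbs_side hs, Real.log_abs, Pool.Agent.W26.HN.log_side hs]

/-- relative frequency of an invariant set -/
theorem inv_rel {s : ℤ} (hs : s = 1 ∨ s = -1) {S : Set ℤ} (hS : ∀ n : ℤ, n ∈ S ↔ T n ∈ S) {d : ℝ}
    (h : HasDensity s S d) : Independent s S d :=
  rel_of hs (RA_inv' hs hS h)

theorem wild_T (x : ℤ) : Wild x ↔ Wild (T x) :=
  ⟨Pool.Agent.H723R2.LSW.wild_mer ⟨1, 0, rfl⟩, Pool.Agent.H723R2.LSW.wild_mer ⟨0, 1, rfl⟩⟩

theorem mer_T (a x : ℤ) : Mer x a ↔ Mer (T x) a := by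
  have h1 : Mer x (T x) := ⟨1, 0, rfl⟩
  exact ⟨fun h => h1.symm.trans h, fun h => h1.trans h⟩

theorem merge_eq (a : ℤ) : {n : ℤ | ∃ i j : ℕ, f₀^[i] (n : ℂ) = f₀^[j] (a : ℂ)} = {n | Mer n a} := by
  ext n
  show (∃ i j : ℕ, Pool.Agent.H723R2.LSW.f₀^[i] (n : ℂ) = Pool.Agent.H723R2.LSW.f₀^[j] (a : ℂ)) ↔ Mer n a
  constructor
  · rintro ⟨i, j, h⟩
    rw [Pool.Agent.H723R2.LSW.f₀_iter, Pool.Agent.H723R2.LSW.f₀_iter] at h
    exact ⟨i, j, by exact_mod_cast h⟩
  · rintro ⟨i, j, h⟩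
    exact ⟨i, j, by rw [Pool.Agent.H723R2.LSW.f₀_iter, Pool.Agent.H723R2.LSW.f₀_iter, h]⟩

theorem log_abs {s : ℤ} (hs : s = 1 ∨ s = -1) (n : ℕ) : Real.log |((s * (n : ℤ) : ℤ) : ℝ)| = Real.log n := by
  rw [Real.log_abs, Pool.Agent.W26.HN.log_side hs]

/-- the visits of a cycle representative -/
theorem visits_rel {s : ℤ} (hs : s = 1 ∨ s = -1) {a : ℤ} (ha : IsCycleRep s a) {d : ℝ}
    (h : HasDensity s {n | Mer n a} d) :
    (∀ (q : ℕ) (b : ℤ), 1 ≤ q →
      Independent s {n | ∃ k : ℕ, Visits a k n ∧ (k : ℤ) ≡ b [ZMOD q]} (d / q) ∧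
      ∀ x : ℝ, Independent s {n | ∃ k : ℕ, Visits a k n ∧ (k : ℝ) ≤ bound x n ∧ (k : ℤ) ≡ b [ZMOD q]}
        (d * AdditiveFunctions.Phi x / q)) ∧
    (∀ η : ℝ, 0 < η → Independent s {n | ∃ k : ℕ, Visits a k n ∧
      |(k : ℝ) - 2 / Real.log (4 / 3) * Real.log (|(n : ℝ)|)| ≤ η * Real.log |(n : ℝ)|} d) := by
  obtain ⟨ha0, ⟨p, hp, hpa'⟩, hmin'⟩ := ha
  have hpa : T^[p] a = a := cast_iter.1 hpa'
  have hmin : ∀ j : ℕ, s * a ≤ s * T^[j] a := fun j => hmin' j _ (cast_iter.2 rfl)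
  -- the representative is odd
  have hodd : a % 2 = 1 := by
    by_contra hcon
    have h1 : a % 2 = 0 := by omega
    have h2 := hmin 1
    rw [Function.iterate_one] at h2
    have h3 : T a = a / 2 := by
      show (if a % 2 = 0 then a / 2 else (3 * a + 1) / 2) = a / 2
      rw [if_pos h1]
    rw [h3] at h2
    rcases hs with rfl | rfl <;> omega
  have hF : ∀ y ∈ ({a} : Finset ℤ), y % 2 = 1 := fun y hy => by
    rw [Finset.mem_singleton] at hy; rw [hy]; exact hodd
  have hper : Function.IsPeriodicPt T p a := hpa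
  have hB : Pool.Agent.Y964.LW.Bd ({a} : Finset ℤ) (∑ i ∈ range p, (T^[i] a).natAbs) := by
    intro y hy i
    rw [Finset.mem_singleton] at hy
    rw [hy]
    show |T^[i] a| ≤ _
    rw [← hper.iterate_mod_apply i]
    have h2 : (T^[i % p] a).natAbs ≤ ∑ i ∈ range p, (T^[i] a).natAbs :=
      Finset.single_le_sum (f := fun i => (T^[i] a).natAbs)
        (fun _ _ => Nat.zero_le _) (Finset.mem_range.2 (Nat.mod_lt _ hp))
    rw [Int.abs_eq_natAbs]
    exact_mod_cast h2
  -- the merging set is the set of the integers which reach `a`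
  have hreach : ∀ n : ℤ, Mer n a ↔ ∃ k, T^[k] n = a := by
    intro n
    constructor
    · rintro ⟨i, j, hij⟩
      have hcp : ∀ m, T^[p * m] a = a := by
        intro m
        rw [Function.iterate_mul]
        exact Function.iterate_fixed hpa m
      refine ⟨p * j - j + i, ?_⟩
      have hle : j ≤ p * j := Nat.le_mul_of_pos_left j hp
      rw [Function.iterate_add_apply, hij, ← Function.iterate_add_apply,
        Nat.sub_add_cancel hle, hcp]
    · rintro ⟨k, hk⟩; exact ⟨k, 0, hk⟩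
  have hE : Pool.Agent.H499R2.ND.Dn (fun n : ℕ => ∃ k : ℕ, Pool.Agent.W26.HN.E {a} k (s * n)) d := by
    refine Pool.Agent.H499R2.LT.Dn_iff (fun n _ => ?_) (Pool.Agent.Y964.LW.dn_side hs h)
    show Mer (s * (n : ℤ)) a ↔ ∃ k : ℕ, Pool.Agent.W26.HN.E {a} k (s * n)
    rw [hreach]
    symm
    constructor
    · rintro ⟨k, hk⟩; exact ⟨k, Finset.mem_singleton.1 hk.1⟩
    · rintro ⟨k, hk⟩
      obtain ⟨j, _, hj⟩ := Pool.Agent.W26.HN.exists_E (F := {a}) (x := s * (n : ℤ)) (k := k)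
        (Finset.mem_singleton.2 hk)
      exact ⟨j, hj⟩
  have hV : ∀ (k : ℕ) (n : ℤ), Pool.Agent.W26.HN.E {a} k n ↔ Visits a k n := by
    intro k n
    unfold Pool.Agent.W26.HN.E Visits
    constructor
    · rintro ⟨h1, h2⟩
      exact ⟨cast_iter.2 (Finset.mem_singleton.1 h1), fun i hi h3 =>
        h2 i hi (Finset.mem_singleton.2 (cast_iter.1 h3))⟩
    · rintro ⟨h1, h2⟩
      exact ⟨Finset.mem_singleton.2 (cast_iter.1 h1), fun i hi h3 =>
        h2 i hi (cast_iter.2 (Finset.mem_singleton.1 h3))⟩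
  obtain ⟨h0, h1, hRL, hlaw⟩ := rel_entr_k hs hF hB hE
  refine ⟨fun q b hq => ⟨?_, fun x => ?_⟩, fun η hη => ?_⟩
  · refine rel_of hs (RA_congr 0 (fun n _ => exists_congr fun k => ?_) (hlaw q b 0 hq).2.1)
    rw [hV]
  · have h5 := ((hlaw q b 0 hq).2.2 x).2
    have e : d / (q : ℝ) * Pool.Agent.H499R2.ND.Phi x = d * AdditiveFunctions.Phi x / q := by
      unfold AdditiveFunctions.Phi
      rw [← Pool.Agent.H499R2.ND.phi_cdf]
      ring
    rw [e] at h5
    refine rel_of hs (RA_congr 0 (fun n _ => exists_congr fun k => ?_) h5)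
    rw [hV]
    unfold bound
    rw [log_abs hs]
    exact Iff.rfl
  · have hrr := Pool.Agent.H499R2.HL.rr_pos
    have hl3 : 0 < Real.log 3 := Real.log_pos (by norm_num)
    have h6 := lln2 (P := fun n : ℕ => ∃ k, Pool.Agent.W26.HN.E {a} k (s * (n : ℤ)))
      (f := fun k n => Pool.Agent.W26.HN.E {a} k (s * (n : ℤ)))
      (g := fun k _ => (k : ℝ))
      (α := 2 / Real.log (4 / 3))
      (σ := Real.log 3 * Pool.Agent.H499R2.HL.rr) (δ := d) (η := η) (by positivity) h0 h1 hη (fun x => by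
        have h7 := ((hlaw 1 0 0 le_rfl).2.2 x).2
        have e1 : d / ((1 : ℕ) : ℝ) * Pool.Agent.H499R2.ND.Phi x = d * Pool.Agent.H499R2.ND.Phi x := by simp
        rw [e1] at h7
        refine RA_congr 0 (fun n _ => exists_congr fun k => and_congr_right fun _ => ?_) h7
        rw [← Pool.Agent.Y964.LW.bk_thr]
        simp [Int.modEq_one]) hRL (fun n h => h)
    refine rel_of hs (RA_congr 0 (fun n _ => exists_congr fun k => ?_) h6)
    rw [hV, log_abs hs]

/-- WANDERING DOMAINS, BASINS AND ALL ADDITIVE FUNCTIONS.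
Let `s = 1` or `s = -1`. The integers of sign `s` in wandering domains of `f₀` have a natural density
`w`, and Q1 holds for the integers of sign `s` if and only if `w = 0`. Independently of all real additive
functions of `|n|` (in the sense of `Independent`: uniformly in any number `d` of additive functions, in the
intervals of their values and in the multiplicative weights) and jointly with the Erdős–Kac law of the
number of prime factors of `|n|`, among the integers of sign `s`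
(1) the integers in wandering domains have frequency `w`;
(2) the integers whose orbits merge with the orbit of `a` have frequency `β a > 0`, for every `a` of
sign `s`;
(3) if `a` is periodic, the integers in the components attracted to the cycle of `a` have frequency
`β a`;
(4) if `a` is the least element (in absolute value) of its cycle, the integers whose orbits visit `a`
for the first time at a time `≡ b` modulo `q` have frequency `β a / q`, and those for which this time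
is, moreover, at most `2 log |n| / log (4/3) + x log 3 √(2 log |n| / (log (4/3))^3)` have frequency
`β a Φ(x) / q`, `Φ` the standard normal distribution function; for every `η > 0` those for which it
is `(2 / log (4/3) ± η) log |n|` have frequency `β a`.
The frequencies `β a` of all cycles and `w` add up to `1`.
(5) If Q1 fails for the integers of sign `s`, then for all `d` and `κ > 0` and all large `N`, whenever `d`
additive functions have values in given intervals at `κ N` or more positive integers `n ≤ N`, there is such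
an `n` for which `s n` is in a wandering domain. -/
theorem result (s : ℤ) (hs : s = 1 ∨ s = -1) : ∃ (w : ℝ) (β : ℤ → ℝ),
    (HasDensity s WanderingIntegers w ∧ Independent s WanderingIntegers w ∧
      (w = 0 ↔ ∀ n : ℤ, 0 < s * n → n ∉ WanderingIntegers)) ∧
    (∀ a : ℤ, 0 < s * a → 0 < β a ∧
      HasDensity s {n | ∃ i j : ℕ, f₀^[i] (n : ℂ) = f₀^[j] (a : ℂ)} (β a) ∧
      Independent s {n | ∃ i j : ℕ, f₀^[i] (n : ℂ) = f₀^[j] (a : ℂ)} (β a)) ∧
    (∀ (a : ℤ) (p : ℕ), 0 < s * a → 0 < p → f₀^[p] (a : ℂ) = a →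
      Independent s (BasinIntegers a p) (β a)) ∧
    (∀ a : ℤ, IsCycleRep s a →
      (∀ (q : ℕ) (b : ℤ), 1 ≤ q →
        Independent s {n | ∃ k : ℕ, Visits a k n ∧ (k : ℤ) ≡ b [ZMOD q]} (β a / q) ∧
        ∀ x : ℝ, Independent s {n | ∃ k : ℕ, Visits a k n ∧ (k : ℝ) ≤ bound x n ∧ (k : ℤ) ≡ b [ZMOD q]}
          (β a * Phi x / q)) ∧
      (∀ η : ℝ, 0 < η → Independent s {n | ∃ k : ℕ, Visits a k n ∧
        |(k : ℝ) - 2 / Real.log (4 / 3) * Real.log (|(n : ℝ)|)| ≤ η * Real.log |(n : ℝ)|} (β a))) ∧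
    HasSum (fun a : {a : ℤ // IsCycleRep s a} => β a) (1 - w) ∧
    ((∃ n : ℤ, 0 < s * n ∧ n ∈ WanderingIntegers) → ∀ (d : ℕ) (κ : ℝ), 0 < κ → ∃ N₀ : ℕ, ∀ N : ℕ, N₀ ≤ N →
      ∀ f : Fin d → ℕ → ℝ, (∀ j, Additive (f j)) → ∀ J : Fin d → Set ℝ, (∀ j, (J j).OrdConnected) →
      κ * N ≤ ({n : ℕ | 1 ≤ n ∧ n ≤ N ∧ ∀ j, f j n ∈ J j}.ncard : ℝ) →
      ∃ n : ℕ, 1 ≤ n ∧ n ≤ N ∧ (∀ j, f j n ∈ J j) ∧ s * (n : ℤ) ∈ WanderingIntegers) := by
  obtain ⟨w, β, hw, hw0, hmer, hbas, hsum⟩ := Pool.Agent.H723R2.LSW.main hs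
  have hmerD : ∀ a : ℤ, 0 < s * a → HasDensity s {n | Mer n a} (β a) := by
    intro a ha
    rw [← merge_eq]
    exact (hmer a ha).2
  have hwinv : ∀ n : ℤ, n ∈ WanderingIntegers ↔ T n ∈ WanderingIntegers := by
    intro n
    show IsWanderingDomain Pool.Agent.H723R2.LSW.f₀ (FatouComponent Pool.Agent.H723R2.LSW.f₀ n) ↔
      IsWanderingDomain Pool.Agent.H723R2.LSW.f₀ (FatouComponent Pool.Agent.H723R2.LSW.f₀ ((T n : ℤ) : ℂ))
    rw [Pool.Agent.H723R2.LSW.wandering_iff, Pool.Agent.H723R2.LSW.wandering_iff]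
    exact wild_T n
  have hmerR : ∀ a : ℤ, 0 < s * a → Independent s {n | Mer n a} (β a) := fun a ha =>
    inv_rel hs (fun n => mer_T a n) (hmerD a ha)
  refine ⟨w, β, ⟨hw, inv_rel hs hwinv hw, hw0⟩, fun a ha => ⟨(hmer a ha).1, (hmer a ha).2, ?_⟩,
    fun a p ha hp hpa => ?_, fun a ha => visits_rel hs ha (hmerD a ha.1), hsum, ?_⟩
  · rw [merge_eq]; exact hmerR a ha
  · have e : BasinIntegers a p = {n | Mer n a} := by
      ext n
      exact Pool.Agent.H723R2.LSW.basin_iff hp (cast_iter.1 hpa)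
    rw [e]
    exact hmerR a ha
  · rintro ⟨n, hn, hn2⟩ d κ hκ
    have hw1 : 0 ≤ w := ge_of_tendsto' hw fun N => by positivity
    have hw2 : w ≠ 0 := fun h => hw0.1 h n hn hn2
    exact RA_hit (RA_inv' hs hwinv hw) (lt_of_le_of_ne hw1 (Ne.symm hw2)) d hκ

end Pool.Agent.Results.MP_071ec9_an.AdditiveFunctions
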