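import Pool.Agent.X266.CD.Lsw

set_option autoImplicit false

/-!
# Integers in wandering domains of the entire `3x+1` map and the digits in odd bases

Let `q 1, ..., q r` be pairwise coprime odd bases and let `W i` be strongly additive functions of the digits
in base `q i`, for example the sums of the digits. For the entire function `f₀` of Letherman, Schleicher and
Wood, which interpolates the `3x+1` function, the integers in wandering domains, in the superattracting basins
and those whose orbits merge with a given orbit have the same relative density in all nondegenerate classes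
given by the residues of the `W i |n|`, with a power saving which is uniform over all functions of the orbits;
the same holds for the laws of the times of the first visits. Each such class decides the problem: there are no
integers of sign `s` in wandering domains if and only if those in the class have lower density zero, and every
integer `a` has a common iterate, after `O(log |a|)` steps, with an element of the class of size polynomial
in `|a|` outside any given exceptional set with at most `C X ^ (1 - θ)` elements up to `X`.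

Method: a dispersion argument. For `2 ^ k ≤ X ^ (1 / 16)` these functions of the orbit of `n`, `|n| > √X`, are
functions of `f₀^k(n)` and the number of odd points before it. For each value of this number the number of the
fibres times their range is about `X`, so that every power saving, on average over `h`, for the correlations of
the digital functions at `n` and `n + h` in residue classes modulo `2 ^ k` is a saving for the sum. The last
assertion follows from this with the function `n ↦ [n reaches a]` and the uniform lower bound `c X / |a|` for the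
number of the `n` between `X / 2` and `X` whose orbits reach `a`.
-/

namespace Pool.Agent.Results.MP_071ec9_an.DigitClasses

open Filter Topology
open Pool.Agent.H384R2.Fatou

/-- The entire function of Letherman, Schleicher and Wood; `f₀ n = T n` for every integer `n`, where
`T` is the `3x+1` function. -/
noncomputable def f₀ (z : ℂ) : ℂ :=
  z / 2 + (z + 1 / 2) * ((1 - Complex.cos (Real.pi * z)) / 2) +
    1 / Real.pi * (1 / 2 - Complex.cos (Real.pi * z)) * Complex.sin (Real.pi * z)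

/-- Among the integers of sign `s` the set `S` has natural density `d`. -/
def HasDensity (s : ℤ) (S : Set ℤ) (d : ℝ) : Prop :=
  Tendsto (fun N : ℕ => ({n : ℤ | 0 < s * n ∧ s * n ≤ N ∧ n ∈ S}.ncard : ℝ) / N) atTop (𝓝 d)

/-- The integers whose Fatou component is a wandering domain of `f₀`. -/
def WanderingIntegers : Set ℤ := {n | IsWanderingDomain f₀ (FatouComponent f₀ n)}

/-- The integers `n` in the Fatou set whose component is not a wandering domain and is attracted to
the cycle of the integer `a`, of period (dividing) `p`: all points `z` of the component satisfy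
`f₀^(k+pm)(z) → a` as `m → ∞`, for some `k`. -/
def BasinIntegers (a : ℤ) (p : ℕ) : Set ℤ :=
  {n | (n : ℂ) ∈ FatouSet f₀ ∧ ¬ IsWanderingDomain f₀ (FatouComponent f₀ n) ∧
    ∃ k : ℕ, ∀ z ∈ FatouComponent f₀ n,
      Tendsto (fun m : ℕ => f₀^[k + p * m] z) atTop (𝓝 (a : ℂ))}

/-- The orbit of the integer `n` under `f₀` visits `a` for the first time at time `k`. -/
def Visits (a : ℤ) (k : ℕ) (n : ℤ) : Prop := f₀^[k] (n : ℂ) = a ∧ ∀ i < k, f₀^[i] (n : ℂ) ≠ a

open Classical in
/-- The number of the odd integers among the first `k` points `n, f₀ n, ..., f₀^(k-1) n` of the orbit. -/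
noncomputable def oddTerms (k : ℕ) (n : ℤ) : ℕ :=
  ((Finset.range k).filter fun i => ∃ l : ℤ, f₀^[i] (n : ℂ) = 2 * l + 1).card

/-- `2 log |n| / log (4/3) + x * log 3 * √(2 log |n| / (log (4/3))^3)` -/
noncomputable def bound (x : ℝ) (n : ℤ) : ℝ :=
  2 / Real.log (4 / 3) * Real.log |(n : ℝ)| +
    x * (Real.log 3 * Real.sqrt (2 * Real.log |(n : ℝ)| / Real.log (4 / 3) ^ 3))

/-- The distribution function of the standard normal law. -/
noncomputable def Phi (x : ℝ) : ℝ :=
  ProbabilityTheory.cdf (ProbabilityTheory.gaussianReal 0 1) x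

/-- The orbit of `n` visits `a`; the time `k` of the first visit is at most `bound x n` and congruent to `κ`
modulo `q`, and the number of the odd integers among the first `k` points of the orbit is congruent to `ω`
modulo `q`. -/
def Level (a : ℤ) (q : ℕ) (κ ω : ℤ) (x : ℝ) : Set ℤ :=
  {n | ∃ k : ℕ, Visits a k n ∧ (k : ℝ) ≤ bound x n ∧ (k : ℤ) ≡ κ [ZMOD q] ∧ (oddTerms k n : ℤ) ≡ ω [ZMOD q]}

/-- `F` is bounded by one and constant along the orbits of the integers. -/
def Invariant (F : ℤ → ℝ) : Prop := (∀ n, |F n| ≤ 1) ∧ ∀ n m : ℤ, f₀ n = m → F n = F m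

/-- `F n` is a function, bounded by one, of the time of the first visit of `a` by the orbit of `n` and of the
number of the odd integers before it; it is constant on the integers whose orbits do not visit `a`. -/
def OfVisits (a : ℤ) (F : ℤ → ℝ) : Prop := ∃ (φ : ℕ → ℕ → ℝ) (φ₀ : ℝ), (∀ k o, |φ k o| ≤ 1) ∧ |φ₀| ≤ 1 ∧
  ∀ n : ℤ, (∀ k, Visits a k n → F n = φ k (oddTerms k n)) ∧ ((∀ k, ¬ Visits a k n) → F n = φ₀)

/-- The functions of the orbits of the integers for which the sums up to `X` are compared. -/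
def Orbital (X : ℕ) (F : ℤ → ℝ) : Prop := Invariant F ∨ ∃ a : ℤ, |(a : ℝ)| ≤ (X : ℝ) ^ (1 / 4 : ℝ) ∧ OfVisits a F

/-- The number of the `n`, `1 ≤ n ≤ X`, in `E` with `s n` in `S`. -/
noncomputable def count (s : ℤ) (E : Set ℕ) (S : Set ℤ) (X : ℕ) : ℕ :=
  {n : ℕ | 1 ≤ n ∧ n ≤ X ∧ n ∈ E ∧ s * (n : ℤ) ∈ S}.ncard

/-- `W` is a strongly additive function of the digits in base `q`, for example the sum of the digits. -/
def Additive (q : ℕ) (W : ℕ → ℤ) : Prop := ∀ n r, r < q → W (q * n + r) = W n + W r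

/-- The greatest common divisor of `m` and of the numbers `W r - r W 1`, `0 ≤ r ≤ q`. For the sum of the
digits it is the greatest common divisor of `m` and `q - 1`. -/
def obstruction (q : ℕ) (W : ℕ → ℤ) (m : ℕ) : ℕ :=
  Nat.gcd m ((Finset.range (q + 1)).gcd fun r => (W r - r * W 1).natAbs)

/-- The set of the natural numbers `n` with `W i n ≡ a i` modulo `m i` for all `i`, and `n ≡ b` modulo `M`. -/
def Class {r : ℕ} (m : Fin r → ℕ) (W : Fin r → ℕ → ℤ) (a : Fin r → ℤ) (M : ℕ) (b : ℤ) : Set ℕ :=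
  {n | (∀ i, (m i : ℤ) ∣ W i n - a i) ∧ (M : ℤ) ∣ n - b}

open Classical in
/-- The sum of `F (s n)` over the natural numbers `n`, `1 ≤ n ≤ X`, in `E`. -/
noncomputable def total (F : ℤ → ℝ) (s : ℤ) (E : Set ℕ) (X : ℕ) : ℝ :=
  ∑ n ∈ (Finset.Icc 1 X).filter (fun n => n ∈ E), F (s * n)

open Pool.Agent.H499R2.HL Pool.Agent.Y965.PL Pool.Agent.X266.CD Pool.Agent.Y55.DS
open Pool.Agent.Y965.PS (Tz ac)
open Pool.Agent.H723R2.LSW (Mer)

theorem level_iff {s : ℤ} (hs : s = 1 ∨ s = -1) (a : ℤ) (q : ℕ) (κ ω : ℤ) (x : ℝ) (n : ℕ) : s * (n : ℤ) ∈ Level a q κ ω x ↔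
    LvV s {a} q κ ω (th (2 / Real.log (4 / 3)) bK x) n := by
  unfold Level LvV
  rw [Set.mem_ofPred_eq]
  refine exists_congr fun k => ?_
  have e1 : |((s * (n : ℤ) : ℤ) : ℝ)| = n := by
    rcases hs with rfl | rfl <;> simp
  have e2 : bound x (s * n) = th (2 / Real.log (4 / 3)) bK x n := by
    unfold bound bK
    rw [th_eq, e1]
  rw [e2]
  have e3 : Visits a k (s * n) ↔ FVis 1 {a} k (s * n) := FVis_iff.symm
  rw [e3]
  have e4 : oddTerms k (s * n) = ac 1 k (s * n) := odd_iff k _
  rw [e4]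

/-- functions of the visits -/
theorem ofVisits_eq {a : ℤ} {F : ℤ → ℝ} (h : OfVisits a F) : ∃ (g : ℕ → ℕ → ℤ → ℝ) (g0 : ℝ), (∀ k o z, |g k o z| ≤ 1) ∧
    |g0| ≤ 1 ∧ F = Fv 1 {a} g g0 := by
  obtain ⟨φ, φ₀, h1, h2, h3⟩ := h
  refine ⟨fun k o _ => φ k o, φ₀, fun k o _ => h1 k o, h2, ?_⟩
  funext n
  by_cases h : ∃ j, FVis 1 {a} j n
  · obtain ⟨j, hj⟩ := h
    rw [Fv_pos hj, (h3 n).1 j (FVis_iff.1 hj)]
    have e4 : oddTerms j n = ac 1 j n := odd_iff j _
    rw [e4]
  · rw [Fv_neg h, (h3 n).2 fun k hk => h ⟨k, FVis_iff.2 hk⟩]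

theorem orbital_tr {w v : ℕ → ℝ} {ρ C c : ℝ} (hT : TrK w v ρ C c) {s : ℤ} (hs : s = 1 ∨ s = -1) {X : ℕ} (hX : 256 ≤ X)
    {F : ℤ → ℝ} (hF : Orbital X F) : Tr w v ρ (C * 2 * (X : ℝ) ^ (1 - c)) X (fun n => F (s * n)) := by
  rcases hF with ⟨h1, h2⟩ | ⟨a, ha, hF⟩
  · refine hT.inv (by omega) hs h1 fun x => ?_
    exact (h2 x (Tz 1 x) (Pool.Agent.H723R2.LSW.f₀_int x)).symm
  · obtain ⟨g, g0, hg, hg0, rfl⟩ := ofVisits_eq hF
    refine hT.vis hX hs (fun b hb => ?_) hg hg0
    rw [Finset.mem_singleton] at hb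
    rw [hb]; exact ha

theorem count_eq (s : ℤ) (E : Set ℕ) (S : Set ℤ) (X : ℕ) :
    (count s E S X : ℝ) = ∑ n ∈ Finset.Icc 1 X, ind (fun n => n ∈ E) n * ind (fun n : ℕ => s * (n : ℤ) ∈ S) n :=
  count_sum X (fun n => n ∈ E) (fun n : ℕ => s * (n : ℤ) ∈ S)

theorem basin_eq {a : ℤ} {p : ℕ} (hp : 0 < p) (hpa : f₀^[p] (a : ℂ) = a) : BasinIntegers a p = {n | Mer n a} := by
  ext n
  exact Pool.Agent.H723R2.LSW.basin_iff hp (Pool.Agent.H723R2.LSW.cast_iter.1 hpa)

theorem iter_iff {a b : ℤ} {k l : ℕ} : f₀^[k] (a : ℂ) = f₀^[l] (b : ℂ) ↔ (Tz 1)^[k] a = (Tz 1)^[l] b := by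
  show Pool.Agent.H723R2.LSW.f₀^[k] (a : ℂ) = Pool.Agent.H723R2.LSW.f₀^[l] (b : ℂ) ↔ _
  rw [Pool.Agent.H723R2.LSW.f₀_iter, Pool.Agent.H723R2.LSW.f₀_iter]
  exact_mod_cast Iff.rfl

theorem total_eq (F : ℤ → ℝ) (s : ℤ) {r : ℕ} (m : Fin r → ℕ) (W : Fin r → ℕ → ℤ) (a : Fin r → ℤ) (M : ℕ) (b : ℤ) (X : ℕ) :
    total F s (Class m W a M b) X = ∑ n ∈ Finset.Icc 1 X, ind (Cl m W a M b) n * F (s * n) := by
  classical
  unfold total
  rw [sum_wt]
  rfl

/-- WANDERING DOMAINS AND DIGITS. Let `s = 1` or `s = -1`. There are the density `w` of the integers of sign `s` in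
wandering domains of `f₀` (`w = 0` if and only if there are none), the densities `β a > 0` of the integers of sign
`s` whose orbits merge with the orbit of `a`, and the densities `α a` of those whose orbits visit `a`; here
`α a = β a` if `a` is periodic, and `α a > 0` if `3` does not divide `a`.

Let `q 1, ..., q r` be pairwise coprime odd bases, let `W i` be a strongly additive integer valued function of the
digits in base `q i` and let `m i` be positive integers.

(1) (Uniform transfer.) For `M ≥ 1` there are `K` and `c > 0` such that for all `X ≥ 256`, all functions `F`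
which are bounded by one and either constant along the orbits of the integers or a function of the time of the
first visit of some `a`, `|a| ≤ X ^ (1 / 4)`, and of the number of the odd integers before it, and for all
residues, the sum of `F (s n)` over the `n ≤ X` with `W i n ≡ a i` modulo `m i` for all `i` and `n ≡ b` modulo `M`
is, up to `K X ^ (1 - c)`, the product of the `g i / m i` times the sum over the `n ≤ X` with `W i 1 n ≡ a i` modulo
`g i` and `n ≡ b` modulo `M`; here `g i` is the greatest common divisor of `m i` and the `W i r - r W i 1`,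
`0 ≤ r ≤ q i`.

Let now all the `g i` be `1`, and let `E` be the set of the `n` with `W i n ≡ a i` modulo `m i` for all `i`.

(2) (Densities.) The `n ∈ E` for which `s n` is in a wandering domain have the density `∏ (1 / m i) * w`, those
for which the orbit of `s n` merges with that of `a` have the density `∏ (1 / m i) * β a`, and this is also the
density of those for which `s n` is in a component attracted to the cycle of `a`, if `a` is periodic.

(3) (Visits.) The `n ∈ E` for which the orbit of `s n` visits `a`, for the first time at a time which is at most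
`bound x n` and congruent to `κ` modulo `k`, after a number of odd integers congruent to `ω` modulo `k`, have the
density `∏ (1 / m i) * α a * Phi x / k ^ 2`.

(4) No integer of sign `s` is in a wandering domain if and only if for every `ε > 0` there are arbitrarily large
`X` such that for at most `ε X` of the `n ≤ X` in `E` the integer `s n` is in a wandering domain.

(5) For `θ > 0` and `C` there is `K` such that for every set `B` of natural numbers with at most `C X ^ (1 - θ)`
elements in `E` up to every `X`: every integer `a` of sign `s` not divisible by three is an iterate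
`a = f₀^j(s z)` with `z ∈ E`, `z ∉ B`, `|a| ≤ z ≤ K |a| ^ K`, `j ≤ K (1 + log |a|)`; and for every integer `a` of
sign `s` there are `z ∈ E`, `z ∉ B`, `1 ≤ z ≤ K |a| ^ K` and `i, j ≤ K (1 + log |a|)` with
`f₀^j(s z) = f₀^i(a)`; so `a` is in a wandering domain if and only if `s z` is. -/
theorem result (s : ℤ) (hs : s = 1 ∨ s = -1) : ∃ (w : ℝ) (β α : ℤ → ℝ),
    HasDensity s WanderingIntegers w ∧ (w = 0 ↔ ∀ n : ℤ, 0 < s * n → n ∉ WanderingIntegers) ∧
    (∀ a : ℤ, 0 < s * a → 0 < β a ∧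
      HasDensity s {n | ∃ i j : ℕ, f₀^[i] (n : ℂ) = f₀^[j] (a : ℂ)} (β a)) ∧
    (∀ a : ℤ, 0 < s * a → (¬ (3 : ℤ) ∣ a → 0 < α a) ∧ ∀ p : ℕ, 0 < p → f₀^[p] (a : ℂ) = a → α a = β a) ∧
    ∀ (r : ℕ) (q : Fin r → ℕ), (∀ i, 3 ≤ q i ∧ Odd (q i)) → (∀ i j, i ≠ j → Nat.Coprime (q i) (q j)) →
    ∀ W : Fin r → ℕ → ℤ, (∀ i, Additive (q i) (W i)) → ∀ m : Fin r → ℕ, (∀ i, 1 ≤ m i) →
    (∀ M : ℕ, 1 ≤ M → ∃ K c : ℝ, 0 < c ∧ ∀ X : ℕ, 256 ≤ X → ∀ F : ℤ → ℝ, Orbital X F →
      ∀ (a : Fin r → ℤ) (b : ℤ),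
        |total F s (Class m W a M b) X - (∏ i, (obstruction (q i) (W i) (m i) : ℝ) / m i) *
          total F s (Class (fun i => obstruction (q i) (W i) (m i)) (fun i n => n * W i 1) a M b) X|
          ≤ K * (X : ℝ) ^ (1 - c)) ∧
    ((∀ i, obstruction (q i) (W i) (m i) = 1) → ∀ a₀ : Fin r → ℤ, ∀ E : Set ℕ, E = {n | ∀ i, (m i : ℤ) ∣ W i n - a₀ i} →
      Tendsto (fun X : ℕ => (count s E WanderingIntegers X : ℝ) / X) atTop (𝓝 ((∏ i, 1 / (m i : ℝ)) * w)) ∧
      (∀ a : ℤ, 0 < s * a →
        Tendsto (fun X : ℕ => (count s E {n | ∃ i j : ℕ, f₀^[i] (n : ℂ) = f₀^[j] (a : ℂ)} X : ℝ) / X) atTop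
          (𝓝 ((∏ i, 1 / (m i : ℝ)) * β a)) ∧
        (∀ p : ℕ, 0 < p → f₀^[p] (a : ℂ) = a →
          Tendsto (fun X : ℕ => (count s E (BasinIntegers a p) X : ℝ) / X) atTop (𝓝 ((∏ i, 1 / (m i : ℝ)) * β a))) ∧
        ∀ (k : ℕ) (κ ω : ℤ) (x : ℝ), 1 ≤ k →
          Tendsto (fun X : ℕ => (count s E (Level a k κ ω x) X : ℝ) / X) atTop
            (𝓝 ((∏ i, 1 / (m i : ℝ)) * (α a * Phi x / k ^ 2)))) ∧
      ((∀ n : ℤ, 0 < s * n → n ∉ WanderingIntegers) ↔
        ∀ ε : ℝ, 0 < ε → ∃ᶠ X : ℕ in atTop, (count s E WanderingIntegers X : ℝ) ≤ ε * X) ∧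
      (∀ θ C : ℝ, 0 < θ → ∃ K : ℝ, 1 ≤ K ∧ ∀ B : Set ℕ,
        (∀ X : ℕ, 1 ≤ X → ({n : ℕ | 1 ≤ n ∧ n ≤ X ∧ n ∈ E ∧ n ∈ B}.ncard : ℝ) ≤ C * (X : ℝ) ^ (1 - θ)) →
        (∀ a : ℤ, 0 < s * a → ¬ (3 : ℤ) ∣ a → ∃ z ∈ E, z ∉ B ∧ |(a : ℝ)| ≤ z ∧ (z : ℝ) ≤ K * |(a : ℝ)| ^ K ∧
          ∃ j : ℕ, (j : ℝ) ≤ K * (1 + Real.log |(a : ℝ)|) ∧ f₀^[j] ((s * (z : ℤ) : ℤ) : ℂ) = a) ∧
        (∀ a : ℤ, 0 < s * a → ∃ z ∈ E, z ∉ B ∧ 1 ≤ z ∧ (z : ℝ) ≤ K * |(a : ℝ)| ^ K ∧
          (∃ i j : ℕ, (i : ℝ) ≤ K * (1 + Real.log |(a : ℝ)|) ∧ (j : ℝ) ≤ K * (1 + Real.log |(a : ℝ)|) ∧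
            f₀^[j] ((s * (z : ℤ) : ℤ) : ℂ) = f₀^[i] (a : ℂ)) ∧
          (a ∈ WanderingIntegers ↔ s * (z : ℤ) ∈ WanderingIntegers)))) := by
  classical
  obtain ⟨w, β, hw, hw0, hmer, hbas, hsum⟩ := Pool.Agent.H723R2.LSW.main hs
  choose α hα0 hα1 hα2 using vis_density hs
  have hmerD : ∀ a : ℤ, 0 < s * a → Pool.Agent.H723R2.LSW.HasDensity s {n | Mer n a} (β a) := by
    intro a ha
    rw [← merge_set]
    exact (hmer a ha).2
  have hαβ : ∀ a : ℤ, 0 < s * a → ∀ p : ℕ, 0 < p → f₀^[p] (a : ℂ) = a → α a = β a := fun a ha p hp hpa =>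
    vis_eq hs hp (Pool.Agent.H723R2.LSW.cast_iter.1 hpa) (hα2 a) (hmerD a ha)
  refine ⟨w, β, α, hw, hw0, hmer, fun a ha => ⟨hα1 a ha, hαβ a ha⟩, ?_⟩
  intro r q hq hc W hW m hm
  have hq3 : ∀ i, 3 ≤ q i := fun i => (hq i).1
  have hqd : ∀ i, Nat.Coprime 2 (q i) := fun i => Nat.coprime_two_left.2 (hq i).2
  refine ⟨fun M hM => ?_, fun hobs a₀ E hE => ?_⟩
  · obtain ⟨C, c, hC, hc0, -, HT⟩ := dig_trK q hq3 hqd hc W hW m hm hM
    refine ⟨C * 2, c, hc0, fun X hX F hF a b => ?_⟩
    rw [total_eq, total_eq]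
    exact orbital_tr (HT a b) hs hX hF
  · obtain ⟨C, c, hC, hc0, hc1, HT⟩ := dig_trK1 q hq3 hqd hc W hW m hm hobs (M := 1) le_rfl
    have HT' : TrK (ind (Cl m W a₀ 1 0)) (fun _ => (1 : ℝ)) (∏ i, (1 / (m i : ℝ))) C c := by
      have h := HT a₀ 0
      rw [ind_all] at h
      exact h
    have hEc : ∀ n, n ∈ E ↔ Cl m W a₀ 1 0 n := by
      intro n
      rw [hE]
      unfold Cl
      simp
    have hEi : ind (fun n => n ∈ E) = ind (Cl m W a₀ 1 0) := by
      funext n; exact ind_congr (hEc n)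
    have hρ : 0 < ∏ i, (1 / (m i : ℝ)) := Finset.prod_pos fun i _ => by
      have : (0 : ℝ) < m i := by exact_mod_cast (hm i)
      positivity
    have hdens : ∀ (S : Set ℤ) (d : ℝ), (∀ x, Tz 1 x ∈ S ↔ x ∈ S) → Pool.Agent.H723R2.LSW.HasDensity s S d →
        Tendsto (fun X : ℕ => (count s E S X : ℝ) / X) atTop (𝓝 ((∏ i, 1 / (m i : ℝ)) * d)) := by
      intro S d hS hd
      have h1 := dens_inv hs hS (dn_of hs hd) hc0 HT'
      unfold Mn at h1
      refine h1.congr fun X => ?_
      rw [count_eq, hEi]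
    have hW1 := hdens WanderingIntegers w WI_T hw
    refine ⟨hW1, fun a ha => ⟨?_, fun p hp hpa => ?_, fun k κ ω x hk => ?_⟩, ?_, ?_⟩
    · have h1 := hdens {n | Mer n a} (β a) (Mer_T a) (hmerD a ha)
      rw [← merge_set] at h1
      exact h1
    · rw [basin_eq hp hpa]
      exact hdens {n | Mer n a} (β a) (Mer_T a) (hmerD a ha)
    · have h1 := dens_vis hs {a} (hα2 a) k κ ω hk x (fun n => ind_nonneg (Cl m W a₀ 1 0) n) hρ.le hC hc0 hc1 HT'
      have e : α a / (k : ℝ) ^ 2 * Pool.Agent.H499R2.ND.Phi x = α a * Phi x / k ^ 2 := by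
        have : Pool.Agent.H499R2.ND.Phi x = Phi x := Pool.Agent.H499R2.ND.phi_cdf x
        rw [this]; ring
      rw [e] at h1
      unfold Mn at h1
      refine h1.congr fun X => ?_
      rw [count_eq, hEi]
      congr 1
      apply Finset.sum_congr rfl
      intro n _
      beta_reduce
      rw [ind_congr (P := fun n : ℕ => s * (n : ℤ) ∈ Level a k κ ω x) (level_iff hs a k κ ω x n)]
    · constructor
      · intro h ε hε
        apply Filter.Eventually.frequently
        filter_upwards with X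
        rw [count_eq]
        have h0 : ∑ n ∈ Finset.Icc 1 X, ind (fun n => n ∈ E) n * ind (fun n : ℕ => s * (n : ℤ) ∈ WanderingIntegers) n = 0 := by
          apply Finset.sum_eq_zero
          intro n hn
          rw [Finset.mem_Icc] at hn
          rw [ind_neg (P := fun n : ℕ => s * (n : ℤ) ∈ WanderingIntegers), mul_zero]
          apply h
          rcases hs with rfl | rfl <;> omega
        rw [h0]
        positivity
      · intro h n hn hn2
        have hw1 : 0 ≤ w := ge_of_tendsto' hw fun N => by positivity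
        have hw2 : w ≠ 0 := fun h => hw0.1 h n hn hn2
        have hw3 : 0 < w := lt_of_le_of_ne hw1 (Ne.symm hw2)
        have h1 := hW1.eventually_const_lt (show (∏ i, 1 / (m i : ℝ)) * w / 2 < (∏ i, 1 / (m i : ℝ)) * w by
          have := mul_pos hρ hw3
          linarith)
        obtain ⟨X, h2, h3, h4⟩ := ((h ((∏ i, 1 / (m i : ℝ)) * w / 2) (by positivity)).and_eventually
          (h1.and (eventually_ge_atTop 1))).exists
        have hX : (0 : ℝ) < X := by exact_mod_cast h4
        rw [lt_div_iff₀ hX] at h3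
        linarith
    · intro θ C' hθ
      have hR := rich_dig q hq3 hqd hc W hW m hm hobs (M := 1) le_rfl a₀ 0
      have e : (fun n : ℕ => ((1 : ℕ) : ℤ) ∣ n - 0) = fun _ : ℕ => True := by funext n; simp
      rw [e] at hR
      obtain ⟨K, hK, HK⟩ := pred_int (C := C') hR hθ
      refine ⟨K, hK, fun B hB => ?_⟩
      obtain ⟨g1, g2⟩ := HK s (fun n => n ∈ B) hs (fun X hX => by
        have h1 := hB X hX
        rw [sub_zero]
        refine le_trans (le_of_eq ?_) h1
        rw [← count_sum]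
        simp only [hEc])
      refine ⟨fun a ha ha3 => ?_, fun a ha => ?_⟩
      · obtain ⟨z, hz1, hz2, hz3, hz4, j, hj1, hj2⟩ := g1 a ha ha3
        exact ⟨z, (hEc z).2 hz1, hz2, hz3, hz4, j, hj1, Pool.Agent.H723R2.LSW.cast_iter.2 hj2⟩
      · obtain ⟨z, i, j, hz1, hz2, hz3, hz4, hi, hj, hij⟩ := g2 a ha
        refine ⟨z, (hEc z).2 hz1, hz2, hz3, hz4, ⟨i, j, hi, hj, iter_iff.2 hij⟩, ?_⟩
        show a ∈ WI ↔ s * (z : ℤ) ∈ WI
        rw [← WI_iter i a, ← hij, WI_iter j]

end Pool.Agent.Results.MP_071ec9_an.DigitClasses
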