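import Pool.Agent.X266.CD.Lsw

set_option autoImplicit false

/-!
# Integers in wandering domains of the entire `3x+1` map and fractional parts of polynomials

Let `α` be irrational and not a Liouville number and let `P` be a real polynomial of degree `k ≥ 2` with leading
coefficient `α`. For the entire function `f₀` of Letherman, Schleicher and Wood, which interpolates the `3x+1`
function, the integers in wandering domains, in the superattracting basins and those whose orbits merge with a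
given orbit are equidistributed with respect to the fractional part of `P |n|`, with a power saving which is
uniform over all functions of the orbits, over the polynomials and over the intervals; the same holds for the laws
of the times of the first visits. Each of the sparse sets of the `n` with `{P |n|} < |n| ^ (-ν)` decides the
problem: there are no integers of sign `s` in wandering domains if and only if those in this set have relative
lower density zero, and every integer `a` has a common iterate, after `O(log |a|)` steps, with an element of the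
sparse set of size polynomial in `|a|` outside any given exceptional set with at most `C X ^ (1 - ν - θ)` elements up
to `X`.

Method: a dispersion argument. For `2 ^ k ≤ X ^ (1 / 16)` these functions of the orbit of `n`, `|n| > √X`, are
functions of `f₀^k(n)` and the number of odd points before it. For each value of this number the number of the
fibres times their range is about `X`, so that every power saving, on average over `h`, for the correlations of
the phases `P` at `n` and `n + h` in residue classes modulo `2 ^ k` is a saving for the sum. The last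
assertion follows from this with the function `n ↦ [n reaches a]` and the uniform lower bound `c X / |a|` for the
number of the `n` between `X / 2` and `X` whose orbits reach `a`.
-/

namespace Pool.Agent.Results.MP_071ec9_an.FractionalParts

open Filter Topology
open Pool.Agent.H384R2.Fatou

/-- The entire function of Letherman, Schleicher and Wood; `f₀ n = T n` for every integer `n`, where
`T` is the `3x+1` function. -/
noncomputable def f₀ (z : ℂ) : ℂ :=
  z / 2 + (z + 1 / 2) * ((1 - Complex.cos (Real.pi * z)) / 2) +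
    1 / Real.pi * (1 / 2 - Complex.cos (Real.pi * z)) * Complex.sin (Real.pi * z)

/-- Among the integers of sign `s` the set `S` has natural density `d`. -/
def HasDensity (s : ℤ) (S : Set ℤ) (d : ℝ) : Prop :=
  Tendsto (fun N : ℕ => ({n : ℤ | 0 < s * n ∧ s * n ≤ N ∧ n ∈ S}.ncard : ℝ) / N) atTop (𝓝 d)

/-- The integers whose Fatou component is a wandering domain of `f₀`. -/
def WanderingIntegers : Set ℤ := {n | IsWanderingDomain f₀ (FatouComponent f₀ n)}

/-- The integers `n` in the Fatou set whose component is not a wandering domain and is attracted to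
the cycle of the integer `a`, of period (dividing) `p`: all points `z` of the component satisfy
`f₀^(k+pm)(z) → a` as `m → ∞`, for some `k`. -/
def BasinIntegers (a : ℤ) (p : ℕ) : Set ℤ :=
  {n | (n : ℂ) ∈ FatouSet f₀ ∧ ¬ IsWanderingDomain f₀ (FatouComponent f₀ n) ∧
    ∃ k : ℕ, ∀ z ∈ FatouComponent f₀ n,
      Tendsto (fun m : ℕ => f₀^[k + p * m] z) atTop (𝓝 (a : ℂ))}

/-- The orbit of the integer `n` under `f₀` visits `a` for the first time at time `k`. -/
def Visits (a : ℤ) (k : ℕ) (n : ℤ) : Prop := f₀^[k] (n : ℂ) = a ∧ ∀ i < k, f₀^[i] (n : ℂ) ≠ a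

open Classical in
/-- The number of the odd integers among the first `k` points `n, f₀ n, ..., f₀^(k-1) n` of the orbit. -/
noncomputable def oddTerms (k : ℕ) (n : ℤ) : ℕ :=
  ((Finset.range k).filter fun i => ∃ l : ℤ, f₀^[i] (n : ℂ) = 2 * l + 1).card

/-- `2 log |n| / log (4/3) + x * log 3 * √(2 log |n| / (log (4/3))^3)` -/
noncomputable def bound (x : ℝ) (n : ℤ) : ℝ :=
  2 / Real.log (4 / 3) * Real.log |(n : ℝ)| +
    x * (Real.log 3 * Real.sqrt (2 * Real.log |(n : ℝ)| / Real.log (4 / 3) ^ 3))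

/-- The distribution function of the standard normal law. -/
noncomputable def Phi (x : ℝ) : ℝ :=
  ProbabilityTheory.cdf (ProbabilityTheory.gaussianReal 0 1) x

/-- The orbit of `n` visits `a`; the time `k` of the first visit is at most `bound x n` and congruent to `κ`
modulo `q`, and the number of the odd integers among the first `k` points of the orbit is congruent to `ω`
modulo `q`. -/
def Level (a : ℤ) (q : ℕ) (κ ω : ℤ) (x : ℝ) : Set ℤ :=
  {n | ∃ k : ℕ, Visits a k n ∧ (k : ℝ) ≤ bound x n ∧ (k : ℤ) ≡ κ [ZMOD q] ∧ (oddTerms k n : ℤ) ≡ ω [ZMOD q]}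

/-- `F` is bounded by one and constant along the orbits of the integers. -/
def Invariant (F : ℤ → ℝ) : Prop := (∀ n, |F n| ≤ 1) ∧ ∀ n m : ℤ, f₀ n = m → F n = F m

/-- `F n` is a function, bounded by one, of the time of the first visit of `a` by the orbit of `n` and of the
number of the odd integers before it; it is constant on the integers whose orbits do not visit `a`. -/
def OfVisits (a : ℤ) (F : ℤ → ℝ) : Prop := ∃ (φ : ℕ → ℕ → ℝ) (φ₀ : ℝ), (∀ k o, |φ k o| ≤ 1) ∧ |φ₀| ≤ 1 ∧
  ∀ n : ℤ, (∀ k, Visits a k n → F n = φ k (oddTerms k n)) ∧ ((∀ k, ¬ Visits a k n) → F n = φ₀)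

/-- The functions of the orbits of the integers for which the sums up to `X` are compared. -/
def Orbital (X : ℕ) (F : ℤ → ℝ) : Prop := Invariant F ∨ ∃ a : ℤ, |(a : ℝ)| ≤ (X : ℝ) ^ (1 / 4 : ℝ) ∧ OfVisits a F

/-- The number of the `n`, `1 ≤ n ≤ X`, in `E` with `s n` in `S`. -/
noncomputable def count (s : ℤ) (E : Set ℕ) (S : Set ℤ) (X : ℕ) : ℕ :=
  {n : ℕ | 1 ≤ n ∧ n ≤ X ∧ n ∈ E ∧ s * (n : ℤ) ∈ S}.ncard

/-- `α` is irrational and not a Liouville number. -/
def Diophantine (α : ℝ) : Prop :=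
  ∃ A c : ℝ, 0 < c ∧ ∀ l : ℕ, 1 ≤ l → ∀ a : ℤ, c * (l : ℝ) ^ (-A) ≤ |l * α - a|

/-- The set of the natural numbers `n` for which the fractional part of `P n` is in `[u, v)`. -/
def Part (P : Polynomial ℝ) (u v : ℝ) : Set ℕ := {n | u ≤ Int.fract (P.eval (n : ℝ)) ∧ Int.fract (P.eval (n : ℝ)) < v}

/-- The set of the natural numbers `n` for which the fractional part of `P n` is less than `n ^ (-ν)`. -/
def Sparse (P : Polynomial ℝ) (ν : ℝ) : Set ℕ := {n | Int.fract (P.eval (n : ℝ)) < (n : ℝ) ^ (-ν)}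

open Classical in
/-- The sum of `F (s n)` over the natural numbers `n`, `1 ≤ n ≤ X`, in `E` with `n ≡ b` modulo `M`. -/
noncomputable def total (F : ℤ → ℝ) (s : ℤ) (M : ℕ) (b : ℤ) (E : Set ℕ) (X : ℕ) : ℝ :=
  ∑ n ∈ (Finset.Icc 1 X).filter (fun n => n ∈ E ∧ (M : ℤ) ∣ n - b), F (s * n)

open Pool.Agent.H499R2.HL Pool.Agent.Y965.PL Pool.Agent.X266.CD Pool.Agent.Y55.DS
open Pool.Agent.Y965.PS (Tz ac)
open Pool.Agent.H723R2.LSW (Mer)

theorem level_iff {s : ℤ} (hs : s = 1 ∨ s = -1) (a : ℤ) (q : ℕ) (κ ω : ℤ) (x : ℝ) (n : ℕ) : s * (n : ℤ) ∈ Level a q κ ω x ↔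
    LvV s {a} q κ ω (th (2 / Real.log (4 / 3)) bK x) n := by
  unfold Level LvV
  rw [Set.mem_ofPred_eq]
  refine exists_congr fun k => ?_
  have e1 : |((s * (n : ℤ) : ℤ) : ℝ)| = n := by
    rcases hs with rfl | rfl <;> simp
  have e2 : bound x (s * n) = th (2 / Real.log (4 / 3)) bK x n := by
    unfold bound bK
    rw [th_eq, e1]
  rw [e2]
  have e3 : Visits a k (s * n) ↔ FVis 1 {a} k (s * n) := FVis_iff.symm
  rw [e3]
  have e4 : oddTerms k (s * n) = ac 1 k (s * n) := odd_iff k _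
  rw [e4]

/-- functions of the visits -/
theorem ofVisits_eq {a : ℤ} {F : ℤ → ℝ} (h : OfVisits a F) : ∃ (g : ℕ → ℕ → ℤ → ℝ) (g0 : ℝ), (∀ k o z, |g k o z| ≤ 1) ∧
    |g0| ≤ 1 ∧ F = Fv 1 {a} g g0 := by
  obtain ⟨φ, φ₀, h1, h2, h3⟩ := h
  refine ⟨fun k o _ => φ k o, φ₀, fun k o _ => h1 k o, h2, ?_⟩
  funext n
  by_cases h : ∃ j, FVis 1 {a} j n
  · obtain ⟨j, hj⟩ := h
    rw [Fv_pos hj, (h3 n).1 j (FVis_iff.1 hj)]
    have e4 : oddTerms j n = ac 1 j n := odd_iff j _
    rw [e4]
  · rw [Fv_neg h, (h3 n).2 fun k hk => h ⟨k, FVis_iff.2 hk⟩]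

theorem orbital_tr {w v : ℕ → ℝ} {ρ C c : ℝ} (hT : TrK w v ρ C c) {s : ℤ} (hs : s = 1 ∨ s = -1) {X : ℕ} (hX : 256 ≤ X)
    {F : ℤ → ℝ} (hF : Orbital X F) : Tr w v ρ (C * 2 * (X : ℝ) ^ (1 - c)) X (fun n => F (s * n)) := by
  rcases hF with ⟨h1, h2⟩ | ⟨a, ha, hF⟩
  · refine hT.inv (by omega) hs h1 fun x => ?_
    exact (h2 x (Tz 1 x) (Pool.Agent.H723R2.LSW.f₀_int x)).symm
  · obtain ⟨g, g0, hg, hg0, rfl⟩ := ofVisits_eq hF
    refine hT.vis hX hs (fun b hb => ?_) hg hg0
    rw [Finset.mem_singleton] at hb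
    rw [hb]; exact ha

theorem count_eq (s : ℤ) (E : Set ℕ) (S : Set ℤ) (X : ℕ) :
    (count s E S X : ℝ) = ∑ n ∈ Finset.Icc 1 X, ind (fun n => n ∈ E) n * ind (fun n : ℕ => s * (n : ℤ) ∈ S) n :=
  count_sum X (fun n => n ∈ E) (fun n : ℕ => s * (n : ℤ) ∈ S)

theorem basin_eq {a : ℤ} {p : ℕ} (hp : 0 < p) (hpa : f₀^[p] (a : ℂ) = a) : BasinIntegers a p = {n | Mer n a} := by
  ext n
  exact Pool.Agent.H723R2.LSW.basin_iff hp (Pool.Agent.H723R2.LSW.cast_iter.1 hpa)

theorem iter_iff {a b : ℤ} {k l : ℕ} : f₀^[k] (a : ℂ) = f₀^[l] (b : ℂ) ↔ (Tz 1)^[k] a = (Tz 1)^[l] b := by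
  show Pool.Agent.H723R2.LSW.f₀^[k] (a : ℂ) = Pool.Agent.H723R2.LSW.f₀^[l] (b : ℂ) ↔ _
  rw [Pool.Agent.H723R2.LSW.f₀_iter, Pool.Agent.H723R2.LSW.f₀_iter]
  exact_mod_cast Iff.rfl

theorem total_eq (F : ℤ → ℝ) (s : ℤ) (M : ℕ) (b : ℤ) (P : Polynomial ℝ) (u v : ℝ) (X : ℕ) :
    total F s M b (Part P u v) X = ∑ n ∈ Finset.Icc 1 X, ind (Fr M b P u v) n * F (s * n) := by
  classical
  unfold total
  rw [sum_wt]
  apply Finset.sum_congr rfl
  intro n _
  congr 1
  apply ind_congr
  constructor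
  · rintro ⟨h1, h2⟩; exact ⟨h2, h1⟩
  · rintro ⟨h1, h2⟩; exact ⟨h2, h1⟩

theorem total_univ (F : ℤ → ℝ) (s : ℤ) (M : ℕ) (b : ℤ) (X : ℕ) :
    total F s M b Set.univ X = ∑ n ∈ Finset.Icc 1 X, ind (fun n => (M : ℤ) ∣ n - b) n * F (s * n) := by
  classical
  unfold total
  rw [sum_wt]
  apply Finset.sum_congr rfl
  intro n _
  congr 1
  apply ind_congr
  simp

/-- WANDERING DOMAINS AND FRACTIONAL PARTS. Let `s = 1` or `s = -1`. There are the density `w` of the integers of
sign `s` in wandering domains of `f₀` (`w = 0` if and only if there are none), the densities `β a > 0` of the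
integers of sign `s` whose orbits merge with the orbit of `a`, and the densities `γ a` of those whose orbits visit
`a`; here `γ a = β a` if `a` is periodic, and `γ a > 0` if `3` does not divide `a`.

Let `k ≥ 2` and let `α` be irrational and not a Liouville number. All the polynomials `P` below have degree `k` and
the leading coefficient `α`.

(1) (Uniform transfer.) For `M ≥ 1` there are `K` and `c > 0` such that for all `X ≥ 256`, all functions `F`
which are bounded by one and either constant along the orbits of the integers or a function of the time of the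
first visit of some `a`, `|a| ≤ X ^ (1 / 4)`, and of the number of the odd integers before it, for all `P`,
`0 ≤ u ≤ v ≤ 1` and `b`, the sum of `F (s n)` over the `n ≤ X`, `n ≡ b` modulo `M`, with the fractional part of `P n`
in `[u, v)` is, up to `K X ^ (1 - c)`, `v - u` times the sum over all `n ≤ X`, `n ≡ b` modulo `M`.

There are `K` and `c > 0` such that for every `ε > 0` and all large `X`, for all `P` and `0 ≤ u ≤ v ≤ 1` at once,
with the error `ε (v - u) X + K X ^ (1 - c)`: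

(2) (Densities.) The number of the `n ≤ X` with the fractional part of `P n` in `[u, v)` for which `s n` is in a
wandering domain is `(v - u) w X`; that of those for which the orbit of `s n` merges with that of `a` is
`(v - u) β a X`, and so is that of those for which `s n` is in a component attracted to the cycle of `a`, if `a` is
periodic.

(3) (Visits.) The number of the `n ≤ X` with the fractional part of `P n` in `[u, v)` for which the orbit of `s n`
visits `a`, for the first time at a time which is at most `bound x n` and congruent to `κ` modulo `l`, after a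
number of odd integers congruent to `ω` modulo `l`, is `(v - u) γ a * Phi x / l ^ 2 * X`.

There is `ν₀ > 0`, depending on `k` and `α` only, such that for all `P` and `0 ≤ ν < ν₀`, with `S` the set of the `n`
for which the fractional part of `P n` is less than `n ^ (-ν)`:

(4) No integer of sign `s` is in a wandering domain if and only if for every `ε > 0` there are arbitrarily large
`X` such that for at most `ε X ^ (1 - ν)` of the `n ≤ X` in `S` the integer `s n` is in a wandering domain.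

(5) For `θ > 0` and `C` there is `K` such that for every set `B` of natural numbers with at most
`C X ^ (1 - ν - θ)` elements in `S` up to every `X`: every integer `a` of sign `s` not divisible by three is an
iterate `a = f₀^j(s z)` with `z ∈ S`, `z ∉ B`, `|a| ≤ z ≤ K |a| ^ K`, `j ≤ K (1 + log |a|)`; and for every integer
`a` of sign `s` there are `z ∈ S`, `z ∉ B`, `1 ≤ z ≤ K |a| ^ K` and `i, j ≤ K (1 + log |a|)` with
`f₀^j(s z) = f₀^i(a)`; so `a` is in a wandering domain if and only if `s z` is. -/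
theorem result (s : ℤ) (hs : s = 1 ∨ s = -1) : ∃ (w : ℝ) (β γ : ℤ → ℝ),
    HasDensity s WanderingIntegers w ∧ (w = 0 ↔ ∀ n : ℤ, 0 < s * n → n ∉ WanderingIntegers) ∧
    (∀ a : ℤ, 0 < s * a → 0 < β a ∧
      HasDensity s {n | ∃ i j : ℕ, f₀^[i] (n : ℂ) = f₀^[j] (a : ℂ)} (β a)) ∧
    (∀ a : ℤ, 0 < s * a → (¬ (3 : ℤ) ∣ a → 0 < γ a) ∧ ∀ p : ℕ, 0 < p → f₀^[p] (a : ℂ) = a → γ a = β a) ∧
    ∀ (k : ℕ) (α : ℝ), 2 ≤ k → Diophantine α →
    (∀ M : ℕ, 1 ≤ M → ∃ K c : ℝ, 0 < c ∧ ∀ X : ℕ, 256 ≤ X → ∀ F : ℤ → ℝ, Orbital X F →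
      ∀ P : Polynomial ℝ, P.natDegree ≤ k → P.coeff k = α → ∀ u v : ℝ, 0 ≤ u → u ≤ v → v ≤ 1 → ∀ b : ℤ,
        |total F s M b (Part P u v) X - (v - u) * total F s M b Set.univ X| ≤ K * (X : ℝ) ^ (1 - c)) ∧
    (∃ K c : ℝ, 0 < c ∧ ∀ ε : ℝ, 0 < ε →
      (∃ X₀ : ℕ, ∀ X : ℕ, X₀ ≤ X →
        ∀ P : Polynomial ℝ, P.natDegree ≤ k → P.coeff k = α → ∀ u v : ℝ, 0 ≤ u → u ≤ v → v ≤ 1 →
          |(count s (Part P u v) WanderingIntegers X : ℝ) - (v - u) * (w * X)| ≤
            ε * (v - u) * X + K * (X : ℝ) ^ (1 - c)) ∧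
      ∀ a : ℤ, 0 < s * a →
        (∃ X₀ : ℕ, ∀ X : ℕ, X₀ ≤ X →
          ∀ P : Polynomial ℝ, P.natDegree ≤ k → P.coeff k = α → ∀ u v : ℝ, 0 ≤ u → u ≤ v → v ≤ 1 →
            |(count s (Part P u v) {n | ∃ i j : ℕ, f₀^[i] (n : ℂ) = f₀^[j] (a : ℂ)} X : ℝ) - (v - u) * (β a * X)| ≤
              ε * (v - u) * X + K * (X : ℝ) ^ (1 - c) ∧
            ∀ p : ℕ, 0 < p → f₀^[p] (a : ℂ) = a →
              |(count s (Part P u v) (BasinIntegers a p) X : ℝ) - (v - u) * (β a * X)| ≤
                ε * (v - u) * X + K * (X : ℝ) ^ (1 - c)) ∧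
        ∀ (l : ℕ) (κ ω : ℤ) (x : ℝ), 1 ≤ l → ∃ X₀ : ℕ, ∀ X : ℕ, X₀ ≤ X →
          ∀ P : Polynomial ℝ, P.natDegree ≤ k → P.coeff k = α → ∀ u v : ℝ, 0 ≤ u → u ≤ v → v ≤ 1 →
            |(count s (Part P u v) (Level a l κ ω x) X : ℝ) - (v - u) * (γ a * Phi x / l ^ 2 * X)| ≤
              ε * (v - u) * X + K * (X : ℝ) ^ (1 - c)) ∧
    (∃ ν₀ : ℝ, 0 < ν₀ ∧ ∀ P : Polynomial ℝ, P.natDegree ≤ k → P.coeff k = α → ∀ ν : ℝ, 0 ≤ ν → ν < ν₀ →
      ((∀ n : ℤ, 0 < s * n → n ∉ WanderingIntegers) ↔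
        ∀ ε : ℝ, 0 < ε → ∃ᶠ X : ℕ in atTop, (count s (Sparse P ν) WanderingIntegers X : ℝ) ≤ ε * (X : ℝ) ^ (1 - ν)) ∧
      (∀ θ C : ℝ, 0 < θ → ∃ K : ℝ, 1 ≤ K ∧ ∀ B : Set ℕ,
        (∀ X : ℕ, 1 ≤ X → ({n : ℕ | 1 ≤ n ∧ n ≤ X ∧ n ∈ Sparse P ν ∧ n ∈ B}.ncard : ℝ) ≤ C * (X : ℝ) ^ (1 - ν - θ)) →
        (∀ a : ℤ, 0 < s * a → ¬ (3 : ℤ) ∣ a → ∃ z ∈ Sparse P ν, z ∉ B ∧ |(a : ℝ)| ≤ z ∧
          (z : ℝ) ≤ K * |(a : ℝ)| ^ K ∧
          ∃ j : ℕ, (j : ℝ) ≤ K * (1 + Real.log |(a : ℝ)|) ∧ f₀^[j] ((s * (z : ℤ) : ℤ) : ℂ) = a) ∧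
        (∀ a : ℤ, 0 < s * a → ∃ z ∈ Sparse P ν, z ∉ B ∧ 1 ≤ z ∧ (z : ℝ) ≤ K * |(a : ℝ)| ^ K ∧
          (∃ i j : ℕ, (i : ℝ) ≤ K * (1 + Real.log |(a : ℝ)|) ∧ (j : ℝ) ≤ K * (1 + Real.log |(a : ℝ)|) ∧
            f₀^[j] ((s * (z : ℤ) : ℤ) : ℂ) = f₀^[i] (a : ℂ)) ∧
          (a ∈ WanderingIntegers ↔ s * (z : ℤ) ∈ WanderingIntegers)))) := by
  classical
  obtain ⟨w, β, hw, hw0, hmer, hbas, hsum⟩ := Pool.Agent.H723R2.LSW.main hs
  choose γ hγ0 hγ1 hγ2 using vis_density hs
  have hmerD : ∀ a : ℤ, 0 < s * a → Pool.Agent.H723R2.LSW.HasDensity s {n | Mer n a} (β a) := by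
    intro a ha
    rw [← merge_set]
    exact (hmer a ha).2
  have hγβ : ∀ a : ℤ, 0 < s * a → ∀ p : ℕ, 0 < p → f₀^[p] (a : ℂ) = a → γ a = β a := fun a ha p hp hpa =>
    vis_eq hs hp (Pool.Agent.H723R2.LSW.cast_iter.1 hpa) (hγ2 a) (hmerD a ha)
  refine ⟨w, β, γ, hw, hw0, hmer, fun a ha => ⟨hγ1 a ha, hγβ a ha⟩, ?_⟩
  intro k α hk hα
  obtain ⟨k, rfl⟩ : ∃ k', k = k' + 1 := ⟨k - 1, by omega⟩
  have hk1 : 1 ≤ k := by omega
  have hα' : Dioph α := hα
  have hEi : ∀ (P : Polynomial ℝ) (u v : ℝ), ind (fun n => n ∈ Part P u v) = ind (Fr 1 0 P u v) := by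
    intro P u v
    funext n
    apply ind_congr
    unfold Fr Part
    simp
  refine ⟨fun M hM => ?_, ?_, ?_⟩
  · obtain ⟨K, c, hc⟩ : ∃ K c : ℝ, 0 < c ∧ ∀ b ∈ Finset.range M, ∀ X : ℕ, 256 ≤ X → ∀ F : ℤ → ℝ, Orbital X F →
        ∀ P : Polynomial ℝ, P.natDegree ≤ k + 1 → P.coeff (k + 1) = α → ∀ u v : ℝ, 0 ≤ u → u ≤ v → v ≤ 1 →
        |total F s M b (Part P u v) X - (v - u) * total F s M b Set.univ X| ≤ K * (X : ℝ) ^ (1 - c) := by
      have h1 : ∀ b : ℕ, ∃ K c : ℝ, 0 ≤ K ∧ 0 < c ∧ ∀ X : ℕ, 256 ≤ X → ∀ F : ℤ → ℝ, Orbital X F →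
          ∀ P : Polynomial ℝ, P.natDegree ≤ k + 1 → P.coeff (k + 1) = α → ∀ u v : ℝ, 0 ≤ u → u ≤ v → v ≤ 1 →
          |total F s M b (Part P u v) X - (v - u) * total F s M b Set.univ X| ≤ K * (X : ℝ) ^ (1 - c) := by
        intro b
        obtain ⟨C, c, hC, hc0, -, HT⟩ := pol_trK hk1 hα' hM (b : ℤ)
        refine ⟨C * 2, c, by positivity, hc0, fun X hX F hF P hP hPc u v hu huv hv => ?_⟩
        rw [total_eq, total_univ]
        exact orbital_tr (HT P hP hPc u v hu huv hv) hs hX hF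
      choose K c hK hc H using h1
      obtain ⟨c0, hc0, hc0'⟩ := exists_lower (Finset.range M) c hc
      refine ⟨∑ b ∈ Finset.range M, K b, c0, hc0, fun b hb X hX F hF P hP hPc u v hu huv hv => ?_⟩
      refine (H b X hX F hF P hP hPc u v hu huv hv).trans ?_
      have hXR : (1 : ℝ) ≤ X := by exact_mod_cast (by omega : 1 ≤ X)
      exact mul_le_mul (Finset.single_le_sum (f := K) (fun i _ => hK i) hb)
        (Real.rpow_le_rpow_of_exponent_le hXR (by linarith [hc0' b hb])) (by positivity)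
        (Finset.sum_nonneg fun i _ => hK i)
    refine ⟨K, c, hc.1, fun X hX F hF P hP hPc u v hu huv hv b => ?_⟩
    have hMz : (0 : ℤ) < M := by exact_mod_cast hM
    have hb0 := Int.emod_nonneg b hMz.ne'
    have hb1 := Int.emod_lt_of_pos b hMz
    have h4 := hc.2 (b % M).toNat (Finset.mem_range.2 (by omega)) X hX F hF P hP hPc u v hu huv hv
    have h5 : (((b % M).toNat : ℕ) : ℤ) = b % M := Int.toNat_of_nonneg hb0
    have h6 : ∀ E : Set ℕ, total F s M (((b % M).toNat : ℕ) : ℤ) E X = total F s M b E X := by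
      intro E
      unfold total
      apply Finset.sum_congr _ fun _ _ => rfl
      apply Finset.filter_congr
      intro n _
      apply and_congr_right
      intro _
      rw [h5]
      have h7 : (n : ℤ) - b = (n - b % M) - M * (b / M) := by
        have := Int.mul_ediv_add_emod b M
        linarith
      rw [h7]
      exact (dvd_sub_left (dvd_mul_right _ _)).symm
    rw [h6, h6] at h4
    exact h4
  · obtain ⟨C, c, hC, hc0, hc1, HT⟩ := pol_trK hk1 hα' (M := 1) le_rfl 0
    have HT' : ∀ P : Polynomial ℝ, P.natDegree ≤ k + 1 → P.coeff (k + 1) = α → ∀ u v : ℝ, 0 ≤ u → u ≤ v → v ≤ 1 →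
        TrK (ind (Fr 1 0 P u v)) (fun _ => (1 : ℝ)) (v - u) C c := by
      intro P hP hPc u v hu huv hv
      have h := HT P hP hPc u v hu huv hv
      rw [ind_all] at h
      exact h
    have hinv : ∀ (S : Set ℤ) (d : ℝ), (∀ x, Tz 1 x ∈ S ↔ x ∈ S) → Pool.Agent.H723R2.LSW.HasDensity s S d →
        ∀ ε : ℝ, 0 < ε → ∃ X₀ : ℕ, ∀ X : ℕ, X₀ ≤ X →
        ∀ P : Polynomial ℝ, P.natDegree ≤ k + 1 → P.coeff (k + 1) = α → ∀ u v : ℝ, 0 ≤ u → u ≤ v → v ≤ 1 →
          |(count s (Part P u v) S X : ℝ) - (v - u) * (d * X)| ≤ ε * (v - u) * X + 4 * C * (X : ℝ) ^ (1 - c) := by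
      intro S d hS hd ε hε
      obtain ⟨X₀, h0⟩ := (((Mn_ev (Mn_of_Dn (dn_of hs hd)) hε)).and (eventually_ge_atTop 1)).exists_forall_of_atTop
      refine ⟨X₀, fun X hX P hP hPc u v hu huv hv => ?_⟩
      obtain ⟨h1, h2⟩ := h0 X hX
      have h3 := (HT' P hP hPc u v hu huv hv).inv h2 hs (F := fun x => if x ∈ S then 1 else 0)
        (fun x => by split_ifs <;> simp) (fun x => by
          by_cases h : x ∈ S
          · rw [if_pos h, if_pos ((hS x).2 h)]
          · rw [if_neg h, if_neg fun h' => h ((hS x).1 h')])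
      unfold Tr at h3
      have e : ∀ n : ℕ, (if s * (n : ℤ) ∈ S then (1 : ℝ) else 0) = ind (fun n : ℕ => s * (n : ℤ) ∈ S) n := by
        intro n
        by_cases h : s * (n : ℤ) ∈ S
        · rw [if_pos h, ind_pos (P := fun n : ℕ => s * (n : ℤ) ∈ S) h]
        · rw [if_neg h, ind_neg (P := fun n : ℕ => s * (n : ℤ) ∈ S) h]
      simp only [e, one_mul] at h3
      rw [count_eq, hEi]
      set A := ∑ n ∈ Finset.Icc 1 X, ind (Fr 1 0 P u v) n * ind (fun n : ℕ => s * (n : ℤ) ∈ S) n with hA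
      set D := ∑ n ∈ Finset.Icc 1 X, ind (fun n : ℕ => s * (n : ℤ) ∈ S) n with hD
      have e2 : A - (v - u) * (d * X) = (A - (v - u) * D) + (v - u) * (D - d * X) := by ring
      rw [e2]
      refine (abs_add_le _ _).trans ?_
      rw [abs_mul, abs_of_nonneg (by linarith : 0 ≤ v - u)]
      have h4 := mul_le_mul_of_nonneg_left h1 (by linarith : 0 ≤ v - u)
      have h5 : 0 ≤ C * (X : ℝ) ^ (1 - c) := by positivity
      linarith
    refine ⟨4 * C, c, hc0, fun ε hε => ⟨hinv WanderingIntegers w WI_T hw ε hε, fun a ha => ⟨?_, ?_⟩⟩⟩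
    · obtain ⟨X₀, h0⟩ := hinv {n | Mer n a} (β a) (Mer_T a) (hmerD a ha) ε hε
      refine ⟨X₀, fun X hX P hP hPc u v hu huv hv => ⟨?_, fun p hp hpa => ?_⟩⟩
      · have h1 := h0 X hX P hP hPc u v hu huv hv
        rw [← merge_set] at h1
        exact h1
      · rw [basin_eq hp hpa]
        exact h0 X hX P hP hPc u v hu huv hv
    · intro l κ ω x hl
      obtain ⟨X₀, h0⟩ := law_vis hs {a} (hγ2 a) l κ ω hl x hε
      refine ⟨X₀, fun X hX P hP hPc u v hu huv hv => ?_⟩
      have h1 := h0 X hX (ind (Fr 1 0 P u v)) (v - u) C c (fun n => ind_nonneg _ _) (by linarith) hC hc1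
        (HT' P hP hPc u v hu huv hv)
      have e : γ a / (l : ℝ) ^ 2 * Pool.Agent.H499R2.ND.Phi x = γ a * Phi x / l ^ 2 := by
        have : Pool.Agent.H499R2.ND.Phi x = Phi x := Pool.Agent.H499R2.ND.phi_cdf x
        rw [this]; ring
      rw [e] at h1
      rw [count_eq, hEi]
      have e2 : ∑ n ∈ Finset.Icc 1 X, ind (Fr 1 0 P u v) n * ind (fun n : ℕ => s * (n : ℤ) ∈ Level a l κ ω x) n =
          ∑ n ∈ Finset.Icc 1 X, ind (Fr 1 0 P u v) n * ind (LvV s {a} l κ ω (th (2 / Real.log (4 / 3)) bK x)) n := by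
        apply Finset.sum_congr rfl
        intro n _
        rw [ind_congr (P := fun n : ℕ => s * (n : ℤ) ∈ Level a l κ ω x) (level_iff hs a l κ ω x n)]
      rw [e2]
      exact h1
  · obtain ⟨ν0, hν0, hν01, HR⟩ := rich_pol hk1 hα' (M := 1) le_rfl 0
    obtain ⟨C, c, hC, hc0, hc1, HT⟩ := pol_trK hk1 hα' (M := 1) le_rfl 0
    refine ⟨min ν0 c, lt_min hν0 hc0, fun P hP hPc ν hν1 hν2 => ⟨?_, ?_⟩⟩
    · constructor
      · intro h ε hε
        apply Filter.Eventually.frequently
        filter_upwards with X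
        rw [count_eq]
        have h0 : ∑ n ∈ Finset.Icc 1 X, ind (fun n => n ∈ Sparse P ν) n *
            ind (fun n : ℕ => s * (n : ℤ) ∈ WanderingIntegers) n = 0 := by
          apply Finset.sum_eq_zero
          intro n hn
          rw [Finset.mem_Icc] at hn
          rw [ind_neg (P := fun n : ℕ => s * (n : ℤ) ∈ WanderingIntegers), mul_zero]
          apply h
          rcases hs with rfl | rfl <;> omega
        rw [h0]
        positivity
      · intro h n hn hn2
        have hw1 : 0 ≤ w := ge_of_tendsto' hw fun N => by positivity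
        have hw2 : w ≠ 0 := fun h => hw0.1 h n hn hn2
        have hw3 : 0 < w := lt_of_le_of_ne hw1 (Ne.symm hw2)
        have hνc : ν < c := lt_of_lt_of_le hν2 (min_le_right _ _)
        have ev1 := Mn_ev (Mn_of_Dn (dn_of hs hw)) (show 0 < w / 4 by positivity)
        have ev2 := small_err (C * 2) (show 0 < c - ν by linarith) (show 0 < w / 4 by positivity)
        obtain ⟨X, h2, h3, h4, h5⟩ := ((h (w / 4) (by positivity)).and_eventually
          (ev1.and (ev2.and (eventually_ge_atTop 1)))).exists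
        have hX : (0 : ℝ) < X := by exact_mod_cast h5
        have hXR : (1 : ℝ) ≤ X := by exact_mod_cast h5
        set δ : ℝ := (X : ℝ) ^ (-ν) with hδ
        have hδ0 : 0 < δ := by positivity
        have hδ1 : δ ≤ 1 := Real.rpow_le_one_of_one_le_of_nonpos hXR (by linarith)
        have h6 := (HT P hP hPc 0 δ le_rfl hδ0.le hδ1)
        rw [ind_all] at h6
        have h7 := h6.inv h5 hs (F := fun x => if x ∈ WanderingIntegers then 1 else 0)
          (fun x => by split_ifs <;> simp) (fun x => by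
            have hWT : Tz 1 x ∈ WanderingIntegers ↔ x ∈ WanderingIntegers := WI_T x
            by_cases h : x ∈ WanderingIntegers
            · rw [if_pos h, if_pos (hWT.2 h)]
            · rw [if_neg h, if_neg fun h' => h (hWT.1 h')])
        unfold Tr at h7
        have e : ∀ n : ℕ, (if s * (n : ℤ) ∈ WanderingIntegers then (1 : ℝ) else 0) =
            ind (fun n : ℕ => s * (n : ℤ) ∈ WanderingIntegers) n := by
          intro n
          by_cases h : s * (n : ℤ) ∈ WanderingIntegers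
          · rw [if_pos h, ind_pos (P := fun n : ℕ => s * (n : ℤ) ∈ WanderingIntegers) h]
          · rw [if_neg h, ind_neg (P := fun n : ℕ => s * (n : ℤ) ∈ WanderingIntegers) h]
        simp only [e, one_mul, sub_zero] at h7
        rw [count_eq] at h2
        have h8 : ∑ n ∈ Finset.Icc 1 X, ind (Fr 1 0 P 0 δ) n * ind (fun n : ℕ => s * (n : ℤ) ∈ WanderingIntegers) n ≤
            ∑ n ∈ Finset.Icc 1 X, ind (fun n => n ∈ Sparse P ν) n *
              ind (fun n : ℕ => s * (n : ℤ) ∈ WanderingIntegers) n := by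
          apply Finset.sum_le_sum
          intro n hn
          rw [Finset.mem_Icc] at hn
          apply mul_le_mul_of_nonneg_right _ (ind_nonneg _ _)
          by_cases hn3 : Fr 1 0 P 0 δ n
          · have hn4 : n ∈ Sparse P ν := by
              refine lt_of_lt_of_le hn3.2.2 ?_
              rw [hδ]
              exact Real.rpow_le_rpow_of_nonpos (by exact_mod_cast hn.1) (by exact_mod_cast hn.2) (by linarith)
            rw [ind_pos hn3, ind_pos (P := fun n => n ∈ Sparse P ν) hn4]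
          · rw [ind_neg hn3]; exact ind_nonneg _ _
        have h9 := (abs_le.1 h7).1
        have h10 := (abs_le.1 h3).1
        have h11 := mul_le_mul_of_nonneg_left (show (3 * w / 4) * (X : ℝ) ≤ ∑ n ∈ Finset.Icc 1 X,
          ind (fun n : ℕ => s * (n : ℤ) ∈ WanderingIntegers) n by
            have h10' : -(w / 4 * (X : ℝ)) ≤ ∑ n ∈ Finset.Icc 1 X,
              ind (fun n : ℕ => s * (n : ℤ) ∈ WanderingIntegers) n - w * X := h10
            linarith) hδ0.le
        have e1 : δ * (X : ℝ) = (X : ℝ) ^ (1 - ν) := by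
          rw [hδ]
          nth_rewrite 2 [← Real.rpow_one (X : ℝ)]
          rw [← Real.rpow_add hX]
          congr 1; ring
        have e2 : C * 2 * (X : ℝ) ^ (1 - c) ≤ w / 4 * (δ * X) := by
          have e3 : C * 2 * (X : ℝ) ^ (1 - c) = δ * (C * 2 * (X : ℝ) ^ (1 - (c - ν))) := by
            have e4 : (X : ℝ) ^ (1 - c) = δ * (X : ℝ) ^ (1 - (c - ν)) := by
              rw [hδ, ← Real.rpow_add hX]
              congr 1; ring
            rw [e4]; ring
          rw [e3]
          have := mul_le_mul_of_nonneg_left h4 hδ0.le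
          linarith
        rw [← e1] at h2
        have h12 : 0 < w * (δ * X) := by positivity
        nlinarith
    · intro θ C' hθ
      have hR := HR P hP hPc ν hν1 (lt_of_lt_of_le hν2 (min_le_left _ _))
      have e : (fun n : ℕ => ((1 : ℕ) : ℤ) ∣ n - 0) = fun _ : ℕ => True := by funext n; simp
      rw [e] at hR
      have hEc : ∀ n : ℕ, n ∈ Sparse P ν ↔ (((1 : ℕ) : ℤ) ∣ n - 0 ∧ Int.fract (P.eval (n : ℝ)) < (n : ℝ) ^ (-ν)) := by
        intro n
        unfold Sparse
        simp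
      obtain ⟨K, hK, HK⟩ := pred_int (C := C') hR hθ
      refine ⟨K, hK, fun B hB => ?_⟩
      obtain ⟨g1, g2⟩ := HK s (fun n => n ∈ B) hs (fun X hX => by
        have h1 := hB X hX
        refine le_trans (le_of_eq ?_) h1
        rw [← count_sum]
        simp only [hEc])
      refine ⟨fun a ha ha3 => ?_, fun a ha => ?_⟩
      · obtain ⟨z, hz1, hz2, hz3, hz4, j, hj1, hj2⟩ := g1 a ha ha3
        exact ⟨z, (hEc z).2 hz1, hz2, hz3, hz4, j, hj1, Pool.Agent.H723R2.LSW.cast_iter.2 hj2⟩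
      · obtain ⟨z, i, j, hz1, hz2, hz3, hz4, hi, hj, hij⟩ := g2 a ha
        refine ⟨z, (hEc z).2 hz1, hz2, hz3, hz4, ⟨i, j, hi, hj, iter_iff.2 hij⟩, ?_⟩
        show a ∈ WI ↔ s * (z : ℤ) ∈ WI
        rw [← WI_iter i a, ← hij, WI_iter j]

end Pool.Agent.Results.MP_071ec9_an.FractionalParts
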